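import Mathlib

/-!
# The maximal ideal space of the algebra of bounded holomorphic functions, elementary form
-/

set_option autoImplicit false

open Filter Topology Set
open scoped Manifold

namespace Pool.Agent.Y812.RS

/-- the bounded holomorphic functions on `R` -/
def HB (R : Type) [TopologicalSpace R] [ChartedSpace ℂ R] : Type :=
  {f : R → ℂ // MDifferentiable 𝓘(ℂ) 𝓘(ℂ) f ∧ ∃ C : ℝ, ∀ x, ‖f x‖ ≤ C}

/-- `φ` is a unital multiplicative linear functional on `H^∞(R)` -/
def IsChar {R : Type} [TopologicalSpace R] [ChartedSpace ℂ R] (φ : HB R → ℂ) : Prop :=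
  (∀ u : HB R, (∀ x, u.1 x = 1) → φ u = 1) ∧
  (∀ f g h : HB R, (∀ x, h.1 x = f.1 x + g.1 x) → φ h = φ f + φ g) ∧
  (∀ f g h : HB R, (∀ x, h.1 x = f.1 x * g.1 x) → φ h = φ f * φ g) ∧
  ∀ (c : ℂ) (f h : HB R), (∀ x, h.1 x = c * f.1 x) → φ h = c * φ f

/-- the maximal ideal space of `H^∞(R)` -/
def MR (R : Type) [TopologicalSpace R] [ChartedSpace ℂ R] : Type := {φ : HB R → ℂ // IsChar φ}

/-- its Gelfand topology, the topology of pointwise convergence -/
instance (R : Type) [TopologicalSpace R] [ChartedSpace ℂ R] : TopologicalSpace (MR R) :=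
  inferInstanceAs (TopologicalSpace {φ : HB R → ℂ // IsChar φ})

/-- the natural embedding `x ↦ (f ↦ f x)` -/
def iota {R : Type} [TopologicalSpace R] [ChartedSpace ℂ R] (x : R) : MR R :=
  ⟨fun f => f.1 x, fun _ h => h x, fun _ _ _ h => h x, fun _ _ _ h => h x, fun _ _ _ h => h x⟩

/-- `H^∞(R)` separates the points of `R` -/
def Separates (R : Type) [TopologicalSpace R] [ChartedSpace ℂ R] : Prop :=
  ∀ x y : R, x ≠ y → ∃ f : HB R, f.1 x ≠ f.1 y

/-- every point of `R` is, in `𝓜(R)`, the limit of a sequence of points of `R` which leaves every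
compact subset of `R` -/
def Escapes (R : Type) [TopologicalSpace R] [ChartedSpace ℂ R] : Prop :=
  ∀ x : R, ∃ u : ℕ → R, Tendsto (fun n => iota (u n)) atTop (𝓝 (iota x)) ∧
    ∀ K : Set R, IsCompact K → ∀ᶠ n in atTop, u n ∉ K

end Pool.Agent.Y812.RS
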