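import Pool.Agent.H765R2.RS5
import Pool.Agent.Y812.RS.Defs

/-!
# The surface over the disc: point evaluations are nowhere an embedding and have no interior
-/

set_option autoImplicit false

open Filter Topology Complex Set
open scoped Manifold

namespace Pool.Agent.Y812.RS

open Pool.Agent.H765R2.RS

/-- The maximum principle at every point. -/
lemma max_all {g : Surf → ℂ} (hg : MDifferentiable 𝓘(ℂ) 𝓘(ℂ) g) {r B : ℝ} (hr0 : 0 ≤ r)
    (hr : r < 1) (hB : ∀ x : Surf, ‖x.z‖ = r → ‖g x‖ ≤ B) (p : Surf) (hpr : ‖p.z‖ ≤ r) :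
    ‖g p‖ ≤ B := by
  obtain ⟨m1, hm1⟩ := a_tail hr0 hr (δ := 1) one_pos
  obtain ⟨m2, hm2⟩ := p.tail
  set m := max m1 m2 with hm0
  have hm : ∀ n ≥ m, ∀ z : ℂ, ‖z‖ ≤ r → ‖a n z‖ < 1 := fun n hn => hm1 n (by omega)
  have hK := isCompact_piece hr hm
  have hp : p ∈ piece r m := ⟨hpr, fun j hj => hm2 j (by omega)⟩
  obtain ⟨x0, hx0, hmax⟩ := hK.exists_isMaxOn ⟨p, hp⟩ hg.continuous.norm.continuousOn
  set K' := piece r m ∩ {x | ‖g x‖ = ‖g x0‖} with hK'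
  have hK'c : IsCompact K' := hK.inter_right (isClosed_eq hg.continuous.norm continuous_const)
  obtain ⟨x1, hx1, hmax1⟩ := hK'c.exists_isMaxOn ⟨x0, hx0, rfl⟩ cont_z.norm.continuousOn
  have hx1m : ∀ y ∈ piece r m, ‖g y‖ ≤ ‖g x1‖ := by
    intro y hy
    rw [hx1.2]
    exact hmax hy
  have hle := hx1m p hp
  rcases eq_or_lt_of_le hx1.1.1 with h | h
  · exact hle.trans (hB x1 h)
  · exfalso
    have hnhds := piece_nhds hx1.1 h
    have hloc : IsLocalMax (norm ∘ g) x1 := by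
      filter_upwards [hnhds] with y hy
      exact hx1m y hy
    have hev := Complex.norm_eventually_eq_of_mdifferentiableAt_of_isLocalMax (I := 𝓘(ℂ))
      (Eventually.of_forall fun z => hg z) hloc
    obtain ⟨y, ⟨hy1, hy2⟩, hy3⟩ := outward x1 (inter_mem hnhds hev)
    have hyK : y ∈ K' := ⟨hy1, by
      show ‖g y‖ = ‖g x0‖
      rw [← hx1.2]; exact hy2⟩
    have := hmax1 hyK
    have this' : ‖y.z‖ ≤ ‖x1.z‖ := this
    linarith

/-- The main estimate at every point. -/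
lemma est {f : Surf → ℂ} (hf : MDifferentiable 𝓘(ℂ) 𝓘(ℂ) f) {C : ℝ}
    (hC : ∀ x, ‖f x‖ ≤ C) {n : ℕ} (hn : 1 ≤ n) (p : Surf)
    (hp : ‖p.z‖ ^ ((n + 1) * (n + 1)) ≤ 1 / 2) :
    ‖f p - f (tau n p)‖ ≤ ‖p.Y n‖ * (2 * C / Real.sqrt (2 ^ n - 1)) := by
  obtain ⟨ζ, -, hζ1, hζ2⟩ := exists_root (n := (n + 1) * (n + 1)) (by positivity)
  have hpr : ‖p.z‖ ≤ ‖ζ‖ := by
    rw [← hζ2] at hp
    exact (pow_le_pow_iff_left₀ (norm_nonneg _) (norm_nonneg _) (by positivity)).1 hp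
  have h2n : (2 : ℝ) ≤ 2 ^ n := by
    calc (2 : ℝ) = 2 ^ 1 := by norm_num
      _ ≤ 2 ^ n := pow_le_pow_right₀ (by norm_num) hn
  have hs : 0 < Real.sqrt (2 ^ n - 1) := Real.sqrt_pos.2 (by linarith)
  have h1 : ‖quo n f p‖ ≤ 2 * C / Real.sqrt (2 ^ n - 1) := by
    refine max_all (mdiff_quo n hf) (norm_nonneg ζ) hζ1 ?_ p hpr
    intro x hx
    have e1 : ‖a n x.z‖ = 2 ^ n := by
      rw [norm_a, hx, mul_pow, ← pow_mul, hζ2, pow_succ]; ring
    have e2 : 2 ^ n - 1 ≤ ‖x.Y n‖ ^ 2 := by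
      rw [← norm_pow, x.eq n, ← e1]
      have : ‖a n x.z‖ ≤ ‖1 - a n x.z‖ + ‖(1 : ℂ)‖ := by
        calc ‖a n x.z‖ = ‖1 - (1 - a n x.z)‖ := by congr 1; ring
          _ ≤ ‖(1 : ℂ)‖ + ‖1 - a n x.z‖ := norm_sub_le _ _
          _ = _ := by ring
      rw [norm_one] at this
      linarith
    have e3 : Real.sqrt (2 ^ n - 1) ≤ ‖x.Y n‖ := by
      rw [← Real.sqrt_sq (norm_nonneg (x.Y n))]
      exact Real.sqrt_le_sqrt e2
    have e4 : x.Y n ≠ 0 := by
      intro h0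
      rw [h0, norm_zero] at e3
      linarith
    have e5 : ‖odd n f x‖ ≤ 2 * C := by
      calc ‖f x - f (tau n x)‖ ≤ ‖f x‖ + ‖f (tau n x)‖ := norm_sub_le _ _
        _ ≤ 2 * C := by linarith [hC x, hC (tau n x)]
    rw [quo, if_neg e4, norm_div]
    have hC0 : 0 ≤ 2 * C := (norm_nonneg _).trans e5
    gcongr
  by_cases h0 : p.Y n = 0
  · rw [tau_fix h0, sub_self, h0, norm_zero, zero_mul]
  · have h2 : f p - f (tau n p) = p.Y n * quo n f p := by
      rw [quo, if_neg h0, odd]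
      field_simp
    rw [h2, norm_mul]
    exact mul_le_mul_of_nonneg_left h1 (norm_nonneg _)

lemma geo {n : ℕ} (hn : 1 ≤ n) {C : ℝ} (hC : 0 ≤ C) :
    2 * C / Real.sqrt (2 ^ n - 1) ≤ 4 * C * (3 / 4) ^ n := by
  have h2n : (2 : ℝ) ≤ 2 ^ n := by
    calc (2 : ℝ) = 2 ^ 1 := by norm_num
      _ ≤ 2 ^ n := pow_le_pow_right₀ (by norm_num) hn
  have h1 : (1 / 2 * (4 / 3) ^ n : ℝ) ≤ Real.sqrt (2 ^ n - 1) := by
    apply Real.le_sqrt_of_sq_le
    rw [mul_pow, ← pow_mul, mul_comm n 2, pow_mul]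
    have h3 : ((4 / 3 : ℝ) ^ 2) ^ n ≤ 2 ^ n := pow_le_pow_left₀ (by norm_num) (by norm_num) n
    have h4 : (1 / 2 : ℝ) ^ 2 * ((4 / 3 : ℝ) ^ 2) ^ n ≤ (1 / 2 : ℝ) ^ 2 * 2 ^ n :=
      mul_le_mul_of_nonneg_left h3 (by norm_num)
    linarith
  have h5 : (0 : ℝ) < 1 / 2 * (4 / 3) ^ n := by positivity
  calc 2 * C / Real.sqrt (2 ^ n - 1) ≤ 2 * C / (1 / 2 * (4 / 3) ^ n) := by gcongr
    _ = 4 * C * (3 / 4) ^ n := by
      have : (3 / 4 : ℝ) ^ n = ((4 / 3 : ℝ) ^ n)⁻¹ := by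
        rw [← inv_pow]; norm_num
      rw [this]
      field_simp
      ring

/-- For large indices the estimate is geometric, with constants depending only on `z` and `|Y|`. -/
lemma exists_n0 (p : Surf) : ∃ n0 : ℕ, ∀ n ≥ n0, 1 ≤ n ∧ ‖p.z‖ ^ ((n + 1) * (n + 1)) ≤ 1 / 2 ∧
    ‖p.Y n‖ ≤ 2 ∧ 0 < (p.Y n).re := by
  obtain ⟨m1, hm1⟩ := a_tail (norm_nonneg p.z) p.hz (δ := 1) one_pos
  obtain ⟨m2, hm2⟩ := p.tail
  have h1 := (tendsto_pow_atTop_nhds_zero_of_lt_one (norm_nonneg p.z) p.hz)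
  obtain ⟨m3, hm3⟩ := eventually_atTop.1 (h1.eventually (ge_mem_nhds (by norm_num : (0 : ℝ) < 1 / 2)))
  refine ⟨max 1 (max m1 (max m2 m3)), fun n hn => ⟨by omega, ?_, ?_, hm2 n (by omega)⟩⟩
  · apply hm3
    have : n ≤ (n + 1) * (n + 1) := by nlinarith
    omega
  · have h2 := p.norm_Y_sub_one (hm2 n (by omega)).le
    have h3 := hm1 n (by omega) p.z le_rfl
    calc ‖p.Y n‖ = ‖(p.Y n - 1) + 1‖ := by congr 1; ring
      _ ≤ ‖p.Y n - 1‖ + ‖(1 : ℂ)‖ := norm_add_le _ _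
      _ ≤ 2 := by rw [norm_one]; linarith

/-- flipping the signs of `Y M, …, Y (M + k - 1)` -/
noncomputable def fl (p : Surf) (M : ℕ) : ℕ → Surf
  | 0 => p
  | k + 1 => tau (M + k) (fl p M k)

lemma fl_z (p : Surf) (M k : ℕ) : (fl p M k).z = p.z := by
  induction k with
  | zero => rfl
  | succ k ih => exact ih

lemma fl_Y (p : Surf) (M k n : ℕ) :
    (fl p M k).Y n = if M ≤ n ∧ n < M + k then -p.Y n else p.Y n := by
  induction k with
  | zero =>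
    rw [if_neg (by omega)]
    rfl
  | succ k ih =>
    show (tau (M + k) (fl p M k)).Y n = _
    rw [tau_Y]
    by_cases h : n = M + k
    · rw [if_pos h, ih, if_neg (by omega), if_pos (by omega)]
    · rw [if_neg h, ih]
      by_cases h2 : M ≤ n ∧ n < M + k
      · rw [if_pos h2, if_pos (by omega)]
      · rw [if_neg h2, if_neg (by omega)]

lemma norm_fl_Y (p : Surf) (M k n : ℕ) : ‖(fl p M k).Y n‖ = ‖p.Y n‖ := by
  rw [fl_Y]
  split_ifs <;> simp

lemma fl_step {p : Surf} {n0 : ℕ} (h0 : ∀ n ≥ n0, 1 ≤ n ∧ ‖p.z‖ ^ ((n + 1) * (n + 1)) ≤ 1 / 2 ∧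
    ‖p.Y n‖ ≤ 2 ∧ 0 < (p.Y n).re) {M : ℕ} (hM : n0 ≤ M) {f : Surf → ℂ}
    (hf : MDifferentiable 𝓘(ℂ) 𝓘(ℂ) f) {C : ℝ} (hC : ∀ x, ‖f x‖ ≤ C) (k : ℕ) :
    dist (f (fl p M k)) (f (fl p M (k + 1))) ≤ (8 * C * (3 / 4) ^ M) * (3 / 4) ^ k := by
  obtain ⟨h1, h2, h3, -⟩ := h0 (M + k) (by omega)
  have hC0 : 0 ≤ C := (norm_nonneg _).trans (hC p)
  have h4 := est hf hC h1 (fl p M k) (by rw [fl_z]; exact h2)
  rw [norm_fl_Y] at h4
  rw [dist_eq_norm]
  refine h4.trans ?_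
  calc ‖p.Y (M + k)‖ * (2 * C / Real.sqrt (2 ^ (M + k) - 1)) ≤ 2 * (4 * C * (3 / 4) ^ (M + k)) :=
        mul_le_mul h3 (geo h1 hC0) (by positivity) (by norm_num)
    _ = (8 * C * (3 / 4) ^ M) * (3 / 4) ^ k := by rw [pow_add]; ring

/-- the limit characters -/
lemma exists_char {p : Surf} {n0 : ℕ} (h0 : ∀ n ≥ n0, 1 ≤ n ∧ ‖p.z‖ ^ ((n + 1) * (n + 1)) ≤ 1 / 2 ∧
    ‖p.Y n‖ ≤ 2 ∧ 0 < (p.Y n).re) {M : ℕ} (hM : n0 ≤ M) :
    ∃ φ : MR Surf, ∀ f : HB Surf, Tendsto (fun k => f.1 (fl p M k)) atTop (𝓝 (φ.1 f)) := by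
  have hex : ∀ f : HB Surf, ∃ l : ℂ, Tendsto (fun k => f.1 (fl p M k)) atTop (𝓝 l) := by
    intro f
    obtain ⟨C, hC⟩ := f.2.2
    exact cauchySeq_tendsto_of_complete (cauchySeq_of_le_geometric (3 / 4) _ (by norm_num)
      (fl_step h0 hM f.2.1 hC))
  choose L hL using hex
  refine ⟨⟨L, ?_, ?_, ?_, ?_⟩, hL⟩
  · intro u hu
    refine tendsto_nhds_unique (hL u) ?_
    simp only [hu]
    exact tendsto_const_nhds
  · intro f g h hh
    refine tendsto_nhds_unique (hL h) ?_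
    simp only [hh]
    exact (hL f).add (hL g)
  · intro f g h hh
    refine tendsto_nhds_unique (hL h) ?_
    simp only [hh]
    exact (hL f).mul (hL g)
  · intro c f h hh
    refine tendsto_nhds_unique (hL h) ?_
    simp only [hh]
    exact (hL f).const_mul c

lemma tendsto_char {l : Filter ℕ} {u : ℕ → MR Surf} {x : MR Surf}
    (h : ∀ f : HB Surf, Tendsto (fun n => (u n).1 f) l (𝓝 (x.1 f))) : Tendsto u l (𝓝 x) := by
  have h1 : Tendsto (fun n => (u n).1) l (𝓝 x.1) := tendsto_pi_nhds.2 h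
  exact tendsto_subtype_rng.2 h1

/-- the coordinates as elements of the algebra -/
noncomputable def cY (n : ℕ) : HB Surf :=
  ⟨coord (some n), mdiff_coord _, ⟨1 + 2 ^ (n + 1), fun z => norm_Y_le z n⟩⟩

lemma cY_apply (n : ℕ) (x : Surf) : (cY n).1 x = x.Y n := rfl

lemma char_not_mem {p : Surf} {n0 : ℕ} (h0 : ∀ n ≥ n0, 1 ≤ n ∧ ‖p.z‖ ^ ((n + 1) * (n + 1)) ≤ 1 / 2 ∧
    ‖p.Y n‖ ≤ 2 ∧ 0 < (p.Y n).re) {M : ℕ} {φ : MR Surf}
    (hφ : ∀ f : HB Surf, Tendsto (fun k => f.1 (fl p M k)) atTop (𝓝 (φ.1 f))) :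
    φ ∉ Set.range (iota : Surf → MR Surf) := by
  rintro ⟨y, rfl⟩
  obtain ⟨m, hm⟩ := y.tail
  set n := max m (max M n0) with hn
  have h1 : Tendsto (fun k => (cY n).1 (fl p M k)) atTop (𝓝 (y.Y n)) := hφ (cY n)
  have h2 : Tendsto (fun k => (cY n).1 (fl p M k)) atTop (𝓝 (-p.Y n)) := by
    apply tendsto_const_nhds.congr'
    filter_upwards [eventually_gt_atTop n] with k hk
    rw [cY_apply, fl_Y, if_pos (by omega)]
  have h3 := tendsto_nhds_unique h1 h2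
  have h4 := hm n (by omega)
  have h5 := (h0 n (by omega)).2.2.2
  rw [h3, neg_re] at h4
  linarith

/-- every point evaluation is a limit of characters which are not point evaluations -/
theorem not_interior (p : Surf) : iota p ∉ interior (Set.range (iota : Surf → MR Surf)) := by
  intro hint
  obtain ⟨n0, h0⟩ := exists_n0 p
  choose φ hφ using fun M : ℕ => exists_char h0 (M := max n0 M) (le_max_left _ _)
  have hlim : Tendsto φ atTop (𝓝 (iota p)) := by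
    apply tendsto_char
    intro f
    obtain ⟨C, hC⟩ := f.2.2
    have hC0 : 0 ≤ C := (norm_nonneg _).trans (hC p)
    show Tendsto (fun n => (φ n).1 f) atTop (𝓝 (f.1 p))
    rw [tendsto_iff_dist_tendsto_zero]
    have hb : ∀ M, dist ((φ M).1 f) (f.1 p) ≤ (8 * C * (3 / 4) ^ M) / (1 - 3 / 4) := by
      intro M
      have h1 := dist_le_of_le_geometric_of_tendsto₀ (3 / 4) (8 * C * (3 / 4) ^ (max n0 M))
        (by norm_num) (fl_step h0 (le_max_left n0 M) f.2.1 hC) (hφ M f)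
      rw [dist_comm]
      refine h1.trans ?_
      have h2 : (3 / 4 : ℝ) ^ (max n0 M) ≤ (3 / 4) ^ M :=
        pow_le_pow_of_le_one (by norm_num) (by norm_num) (le_max_right _ _)
      gcongr
    refine squeeze_zero (fun _ => dist_nonneg) hb ?_
    have h3 : Tendsto (fun M : ℕ => (8 * C * (3 / 4) ^ M) / (1 - 3 / 4)) atTop
        (𝓝 ((8 * C * 0) / (1 - 3 / 4))) :=
      ((tendsto_pow_atTop_nhds_zero_of_lt_one (by norm_num) (by norm_num)).const_mul _).div_const _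
    simpa using h3
  have hev := hlim.eventually (mem_interior_iff_mem_nhds.1 hint)
  obtain ⟨M, hM⟩ := hev.exists
  exact char_not_mem h0 (hφ M) hM

/-- every point evaluation is a limit of point evaluations at points leaving every compact set -/
theorem escape : Escapes Surf := by
  intro p
  obtain ⟨n0, h0⟩ := exists_n0 p
  refine ⟨fun n => tau n p, ?_, ?_⟩
  · apply tendsto_char
    intro f
    obtain ⟨C, hC⟩ := f.2.2
    show Tendsto (fun n => f.1 (tau n p)) atTop (𝓝 (f.1 p))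
    rw [tendsto_iff_dist_tendsto_zero]
    have hb : ∀ᶠ n : ℕ in atTop, dist (f.1 (tau n p)) (f.1 p) ≤ 8 * C * (3 / 4) ^ n := by
      filter_upwards [eventually_ge_atTop n0] with n hn
      have h1 := fl_step h0 hn f.2.1 hC 0
      rw [dist_comm]
      simpa [fl] using h1
    refine squeeze_zero' (Eventually.of_forall fun _ => dist_nonneg) hb ?_
    have h3 : Tendsto (fun M : ℕ => (8 * C * (3 / 4 : ℝ) ^ M)) atTop (𝓝 (8 * C * 0)) :=
      ((tendsto_pow_atTop_nhds_zero_of_lt_one (by norm_num) (by norm_num)).const_mul _)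
    simpa using h3
  · intro K hK
    by_contra hcon
    rw [not_eventually] at hcon
    have hcon' : ∃ᶠ n in atTop, tau n p ∈ K := hcon.mono fun n hn => not_not.1 hn
    obtain ⟨y, -, hy⟩ := hK.exists_mapClusterPt_of_frequently hcon'
    obtain ⟨m, hm⟩ := eventually_tail y
    have h1 := hy.frequently (p := fun x : Surf => ∀ n ≥ m, 1 / 2 < (x.Y n).re) hm
    obtain ⟨n, hn1, hn2⟩ := (h1.and_eventually (eventually_ge_atTop (max m n0))).exists
    have h2 := hn1 n (by omega)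
    have h3 := (h0 n (by omega)).2.2.2
    rw [tau_Y_self, neg_re] at h2
    linarith

end Pool.Agent.Y812.RS
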